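import Mathlib

open Matrix Polynomial

namespace Pool.Agent.Results.MP_9ad7dc_al.IdempotentsGenerate

/-- `A` has `d + 1` mutually distinct eigenvalues `θ 0, …, θ d` in `K`, and `E i` is the primitive
idempotent `∏_{j ≠ i} (A - θ j) / (θ i - θ j)`, the Lagrange basis polynomial evaluated at `A`. -/
def IsPrimIdemOrdering {K : Type} [Field K] {d : ℕ} (A : Matrix (Fin (d + 1)) (Fin (d + 1)) K)
    (E : Fin (d + 1) → Matrix (Fin (d + 1)) (Fin (d + 1)) K) : Prop :=
  ∃ θ : Fin (d + 1) → K, Function.Injective θ ∧ (∀ i, ∃ v, v ≠ 0 ∧ A *ᵥ v = θ i • v) ∧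
    ∀ i, E i = aeval A (∏ j ∈ Finset.univ.erase i, (C (θ i - θ j)⁻¹ * (X - C (θ j))))

/-- `E i * B * E j` vanishes for `|i - j| > 1` and is nonzero for `|i - j| = 1`. -/
def IsTridiag {K : Type} [Field K] {d : ℕ} (B : Matrix (Fin (d + 1)) (Fin (d + 1)) K)
    (E : Fin (d + 1) → Matrix (Fin (d + 1)) (Fin (d + 1)) K) : Prop :=
  ∀ i j : Fin (d + 1), (1 < |(i : ℤ) - (j : ℤ)| → E i * B * E j = 0) ∧
    (|(i : ℤ) - (j : ℤ)| = 1 → E i * B * E j ≠ 0)

/-- A Leonard system `(A; E; As; Es)` in the algebra of `(d + 1) × (d + 1)` matrices. -/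
def IsLeonardSystem {K : Type} [Field K] {d : ℕ} (A As : Matrix (Fin (d + 1)) (Fin (d + 1)) K)
    (E Es : Fin (d + 1) → Matrix (Fin (d + 1)) (Fin (d + 1)) K) : Prop :=
  IsPrimIdemOrdering A E ∧ IsPrimIdemOrdering As Es ∧ IsTridiag As E ∧ IsTridiag A Es

variable {K : Type} [Field K] {d : ℕ}

/-- Diagonalisation data. -/
def Diag (A : Matrix (Fin (d + 1)) (Fin (d + 1)) K)
    (E : Fin (d + 1) → Matrix (Fin (d + 1)) (Fin (d + 1)) K) : Prop :=
  ∃ (θ : Fin (d + 1) → K) (P Q : Matrix (Fin (d + 1)) (Fin (d + 1)) K), Function.Injective θ ∧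
    P * Q = 1 ∧ Q * A = diagonal θ * Q ∧ ∀ i, E i = vecMulVec (fun a => P a i) (Q i)

lemma aeval_mulVec (A : Matrix (Fin (d + 1)) (Fin (d + 1)) K) (v : Fin (d + 1) → K) (t : K)
    (h : A *ᵥ v = t • v) (f : K[X]) : aeval A f *ᵥ v = f.eval t • v := by
  induction f using Polynomial.induction_on with
  | C a => simp [Algebra.algebraMap_eq_smul_one, Matrix.smul_mulVec]
  | add p q hp hq => rw [map_add, Matrix.add_mulVec, hp, hq, eval_add, add_smul]
  | monomial n a ih =>
    rw [pow_succ, ← mul_assoc, map_mul, aeval_X, ← Matrix.mulVec_mulVec, h, Matrix.mulVec_smul, ih,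
      smul_smul]
    simp only [eval_mul, eval_X, mul_comm]

lemma diag_of {A : Matrix (Fin (d + 1)) (Fin (d + 1)) K}
    {E : Fin (d + 1) → Matrix (Fin (d + 1)) (Fin (d + 1)) K} (h : IsPrimIdemOrdering A E) :
    Diag A E := by
  obtain ⟨θ, hθ, hv, hE⟩ := h
  choose w hw0 hw using hv
  have hli : LinearIndependent K w :=
    Module.End.eigenvectors_linearIndependent' (Matrix.toLin' A) θ hθ w (fun i =>
      ⟨by rw [Module.End.mem_eigenspace_iff]; simpa using hw i, hw0 i⟩)
  let P : Matrix (Fin (d + 1)) (Fin (d + 1)) K := fun a i => w i a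
  have hP : IsUnit P := Matrix.linearIndependent_cols_iff_isUnit.1 hli
  obtain ⟨Q, hQ⟩ := hP.exists_right_inv
  have hQ' : Q * P = 1 := mul_eq_one_comm.1 hQ
  have hAP : A * P = P * diagonal θ := by
    ext a i
    rw [Matrix.mul_diagonal, mul_comm]
    exact congrFun (hw i) a
  refine ⟨θ, P, Q, hθ, hQ, ?_, fun i => ?_⟩
  · calc Q * A = Q * (A * P) * Q := by rw [mul_assoc, mul_assoc, hQ, mul_one]
      _ = diagonal θ * Q := by rw [hAP, ← mul_assoc, hQ', one_mul]
  · have : E i * P = vecMulVec (fun a => P a i) (Q i) * P := by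
      ext a j
      have h1 := congrFun (aeval_mulVec A _ _ (hw j) (Lagrange.basis Finset.univ θ i)) a
      have h2 : (E i * P) a j = (aeval A (Lagrange.basis Finset.univ θ i) *ᵥ w j) a := by
        rw [hE]; rfl
      have h3 : (vecMulVec (fun a => P a i) (Q i) * P) a j = P a i * (Q * P) i j := by
        simp [Matrix.mul_apply, vecMulVec_apply, Finset.mul_sum, mul_assoc]
      rw [h2, h1, h3, hQ']
      by_cases hij : i = j
      · subst hij
        rw [Lagrange.eval_basis_self hθ.injOn (Finset.mem_univ _)]; simp [P]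
      · rw [Lagrange.eval_basis_of_ne hij (Finset.mem_univ _)]; simp [hij]
    calc E i = E i * P * Q := by rw [mul_assoc, hQ, mul_one]
      _ = _ := by rw [this, mul_assoc, hQ, mul_one]

lemma Diag.transpose {A : Matrix (Fin (d + 1)) (Fin (d + 1)) K}
    {E : Fin (d + 1) → Matrix (Fin (d + 1)) (Fin (d + 1)) K} (h : Diag A E) :
    Diag Aᵀ (fun i => (E i)ᵀ) := by
  obtain ⟨θ, P, Q, hθ, hQ, hA, hE⟩ := h
  have hQ' : Q * P = 1 := mul_eq_one_comm.1 hQ
  refine ⟨θ, Qᵀ, Pᵀ, hθ, by rw [← Matrix.transpose_mul, hQ, Matrix.transpose_one], ?_, fun i => ?_⟩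
  · rw [← Matrix.transpose_mul, ← Matrix.diagonal_transpose, ← Matrix.transpose_mul]
    congr 1
    calc A * P = P * (Q * A) * P := by rw [← mul_assoc, hQ, one_mul]
      _ = P * diagonal θ := by rw [hA, mul_assoc, mul_assoc, hQ', mul_one]
  · ext a b; simp [hE, vecMulVec_apply, mul_comm]

lemma Diag.rev {A : Matrix (Fin (d + 1)) (Fin (d + 1)) K}
    {E : Fin (d + 1) → Matrix (Fin (d + 1)) (Fin (d + 1)) K} (h : Diag A E) :
    Diag A (fun i => E i.rev) := by
  obtain ⟨θ, P, Q, hθ, hQ, hA, hE⟩ := h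
  refine ⟨fun i => θ i.rev, fun a i => P a i.rev, fun i a => Q i.rev a,
    hθ.comp Fin.rev_injective, ?_, ?_, fun i => hE _⟩
  · rw [← hQ]; ext a b
    simp only [Matrix.mul_apply]
    exact Equiv.sum_comp Fin.revPerm (fun i => P a i * Q i b)
  · ext i a
    have := congrFun (congrFun hA i.rev) a
    rw [Matrix.diagonal_mul] at this ⊢
    exact this

lemma IsTridiag.transpose {B : Matrix (Fin (d + 1)) (Fin (d + 1)) K}
    {E : Fin (d + 1) → Matrix (Fin (d + 1)) (Fin (d + 1)) K} (h : IsTridiag B E) :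
    IsTridiag Bᵀ (fun i => (E i)ᵀ) := by
  intro i j
  have : (E i)ᵀ * Bᵀ * (E j)ᵀ = (E j * B * E i)ᵀ := by simp [Matrix.mul_assoc]
  simp only [this, ne_eq, Matrix.transpose_eq_zero]
  rw [abs_sub_comm]; exact h j i

lemma IsTridiag.rev {B : Matrix (Fin (d + 1)) (Fin (d + 1)) K}
    {E : Fin (d + 1) → Matrix (Fin (d + 1)) (Fin (d + 1)) K} (h : IsTridiag B E) :
    IsTridiag B (fun i => E i.rev) := by
  intro i j
  have : |(i : ℤ) - (j : ℤ)| = |((i.rev : ℕ) : ℤ) - ((j.rev : ℕ) : ℤ)| := by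
    rw [abs_sub_comm]; congr 1
    simp only [Fin.val_rev]; omega
  rw [this]; exact h _ _

lemma core {A As : Matrix (Fin (d + 1)) (Fin (d + 1)) K}
    {E Es : Fin (d + 1) → Matrix (Fin (d + 1)) (Fin (d + 1)) K} (h1 : Diag A E) (h2 : Diag As Es)
    (hT : IsTridiag A Es) : (∀ j, E j * Es 0 ≠ 0) ∧ ∀ r : ℕ, ∀ φ : Fin (d + 1) → K,
      (∀ i : Fin (d + 1), (i : ℕ) ≤ r → φ ᵥ* Es i = 0) →
      (∀ j : Fin (d + 1), r ≤ (j : ℕ) → φ ᵥ* E j = 0) → φ = 0 := by
  obtain ⟨θ, P, Q, hθ, hQ, hA, hE⟩ := h1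
  obtain ⟨_, U, W, -, hW, -, hEs⟩ := h2
  have hQ' : Q * P = 1 := mul_eq_one_comm.1 hQ
  have hW' : W * U = 1 := mul_eq_one_comm.1 hW
  let u : Fin (d + 1) → Fin (d + 1) → K := fun i a => U a i
  have hEsv : ∀ i v, Es i *ᵥ v = (W *ᵥ v) i • u i := fun i v => by
    rw [hEs, vecMulVec_mulVec]; ext a; simp [u, mulVec, mul_comm]
  have hWu : ∀ i j, (W *ᵥ u j) i = if i = j then 1 else 0 := fun i j => by
    rw [← Matrix.one_apply, ← hW']; rfl
  have hsum : ∀ v, ∑ k, (W *ᵥ v) k • u k = v := fun v => by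
    conv_rhs => rw [← Matrix.one_mulVec v, ← hW, ← Matrix.mulVec_mulVec]
    ext a; simp [u, mulVec, dotProduct, Finset.sum_apply, mul_comm]
  have hu0 : ∀ i, u i ≠ 0 := fun i h => by simpa [h] using hWu i i
  -- `g j f` is the `j`-th eigencoordinate of `f(A) u 0`
  let c : Fin (d + 1) → K := Q *ᵥ u 0
  let Pd : ℕ → Submodule K (Fin (d + 1) → K) := fun n =>
    { carrier := {v | ∃ f ∈ degreeLT K (n + 1), ∀ j, (Q *ᵥ v) j = f.eval (θ j) * c j}
      add_mem' := by
        rintro v w ⟨f, hf, h1⟩ ⟨g, hg, h2⟩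
        exact ⟨f + g, add_mem hf hg, fun j => by simp [Matrix.mulVec_add, h1, h2, add_mul]⟩
      zero_mem' := ⟨0, zero_mem _, by simp⟩
      smul_mem' := by
        rintro t v ⟨f, hf, h1⟩
        exact ⟨t • f, Submodule.smul_mem _ _ hf, fun j => by
          simp [Matrix.mulVec_smul, h1, mul_assoc]⟩ }
  have hPmono : ∀ {m n}, m ≤ n → Pd m ≤ Pd n := by
    rintro m n hmn v ⟨f, hf, h⟩
    exact ⟨f, degreeLT_mono (by omega) hf, h⟩
  have hPA : ∀ n v, v ∈ Pd n → A *ᵥ v ∈ Pd (n + 1) := by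
    rintro n v ⟨f, hf, h⟩
    refine ⟨X * f, ?_, fun j => ?_⟩
    · simp only [mem_degreeLT] at hf ⊢
      by_cases h0 : f = 0
      · simp [h0]
      · rw [degree_mul, degree_X, degree_eq_natDegree h0] at *
        norm_cast at *
        omega
    · rw [Matrix.mulVec_mulVec, hA, ← Matrix.mulVec_mulVec, Matrix.mulVec_diagonal, h]
      simp [mul_assoc]
  have happ : ∀ k i v, (Es k * A * Es i) *ᵥ v =
      (W *ᵥ v) i • (W *ᵥ (A *ᵥ u i)) k • u k := by
    intro k i v
    rw [← Matrix.mulVec_mulVec, ← Matrix.mulVec_mulVec, hEsv i, Matrix.mulVec_smul,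
      Matrix.mulVec_smul, hEsv k]
  have hu : ∀ n (hn : n < d + 1), ∃ f ∈ degreeLT K (n + 1), f.coeff n ≠ 0 ∧
      ∀ j, (Q *ᵥ u ⟨n, hn⟩) j = f.eval (θ j) * c j := by
    intro n
    induction n using Nat.strong_induction_on with
    | _ n ih =>
      intro hn
      rcases n with _ | n
      · exact ⟨1, by simp [mem_degreeLT], by simp, by simp [c]⟩
      · let i : Fin (d + 1) := ⟨n, by omega⟩
        let i' : Fin (d + 1) := ⟨n + 1, hn⟩
        have hc : (W *ᵥ (A *ᵥ u i)) i' ≠ 0 := by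
          intro h0
          apply (hT i' i).2 (by simp [i, i'])
          apply Matrix.toLin'.injective
          apply LinearMap.ext; intro x
          simp only [Matrix.toLin'_apply, happ, h0, zero_smul, smul_zero, Matrix.zero_mulVec]
        have hs := hsum (A *ᵥ u i)
        rw [← Finset.add_sum_erase _ _ (Finset.mem_univ i')] at hs
        have hmem : ∑ k ∈ Finset.univ.erase i', (W *ᵥ (A *ᵥ u i)) k • u k ∈ Pd n := by
          refine Submodule.sum_mem _ fun k hk => ?_
          have hk' : (k : ℕ) ≠ n + 1 := fun h => (Finset.ne_of_mem_erase hk) (Fin.ext h)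
          by_cases hkn : (k : ℕ) ≤ n
          · obtain ⟨f, hf, -, h⟩ := ih k (by omega) k.2
            exact Submodule.smul_mem _ _ (hPmono hkn ⟨f, hf, h⟩)
          · have h0 := (hT k i).1 (by
              simp only [i]
              rw [lt_abs]; left; push_cast; omega)
            have := happ k i (u i)
            rw [h0, hWu, if_pos rfl, one_smul, Matrix.zero_mulVec] at this
            rw [← this]; exact Submodule.zero_mem _
        obtain ⟨g, hg, hg'⟩ := hmem
        obtain ⟨f, hf, hf0, hf'⟩ := ih n (by omega) i.2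
        refine ⟨((W *ᵥ (A *ᵥ u i)) i')⁻¹ • (X * f - g), Submodule.smul_mem _ _ (sub_mem ?_
          (degreeLT_mono (by omega) hg)), ?_, fun j => ?_⟩
        · simp only [mem_degreeLT] at hf ⊢
          have h0 : f ≠ 0 := fun h => hf0 (by simp [h])
          rw [degree_mul, degree_X, degree_eq_natDegree h0] at *
          norm_cast at *
          omega
        · rw [coeff_smul, coeff_sub, coeff_X_mul,
            coeff_eq_zero_of_degree_lt (mem_degreeLT.1 hg), sub_zero]
          exact smul_ne_zero (inv_ne_zero hc) hf0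
        · have h3 := congrFun (congrArg (Q *ᵥ ·) hs) j
          simp only [Matrix.mulVec_add, Matrix.mulVec_smul, Pi.add_apply, Pi.smul_apply, hg',
            smul_eq_mul] at h3
          rw [Matrix.mulVec_mulVec (u i) Q A, hA, ← Matrix.mulVec_mulVec, Matrix.mulVec_diagonal,
            hf'] at h3
          rw [eval_smul, eval_sub, eval_mul, eval_X, smul_eq_mul, mul_assoc,
            eq_inv_mul_iff_mul_eq₀ hc]
          linear_combination h3
  have hc0 : ∀ j, c j ≠ 0 := by
    intro j h0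
    have hz : ∀ i, (Q *ᵥ u i) j = 0 := by
      intro i
      obtain ⟨f, -, -, hf⟩ := hu i i.2
      rw [hf, h0, mul_zero]
    have h1 : Q * U * (W * P) = 1 := by rw [mul_assoc, ← mul_assoc U, hW, one_mul, hQ']
    have h2 := congrFun (congrFun h1 j) j
    rw [Matrix.mul_apply, Matrix.one_apply_eq, Finset.sum_eq_zero] at h2
    · exact zero_ne_one h2
    · intro k _
      rw [show (Q * U) j k = 0 from hz k, zero_mul]
  refine ⟨fun j h0 => ?_, fun r φ hφ1 hφ2 => ?_⟩
  · have h1 : (E j * Es 0) *ᵥ u 0 = 0 := by rw [h0, Matrix.zero_mulVec]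
    rw [← Matrix.mulVec_mulVec, hEsv, hWu, if_pos rfl, one_smul, hE] at h1
    apply hc0 j
    have h3 : (Q * P) j j = 1 := by rw [hQ', Matrix.one_apply_eq]
    have h4 : ∀ a, P a j * c j = 0 := fun a => by
      rw [vecMulVec_mulVec] at h1
      exact congrFun h1 a
    rw [← one_mul (c j), ← h3, Matrix.mul_apply, Finset.sum_mul]
    exact Finset.sum_eq_zero fun a _ => by rw [mul_assoc, h4, mul_zero]
  · let a : Fin (d + 1) → K := φ ᵥ* P
    have hφ : ∀ v, φ ⬝ᵥ v = ∑ j, a j * (Q *ᵥ v) j := fun v => by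
      conv_lhs => rw [← Matrix.one_mulVec v, ← hQ, ← Matrix.mulVec_mulVec,
        Matrix.dotProduct_mulVec]
      rfl
    have ha : ∀ j : Fin (d + 1), r ≤ (j : ℕ) → a j = 0 := by
      intro j hj
      have h1 := congrArg (· ⬝ᵥ (fun b => P b j)) (hφ2 j hj)
      have h3 : Q j ⬝ᵥ (fun b => P b j) = 1 := by
        have : (Q * P) j j = 1 := by rw [hQ', Matrix.one_apply_eq]
        exact this
      simp only [hE, vecMul_vecMulVec, smul_dotProduct, h3, zero_dotProduct, smul_eq_mul,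
        mul_one] at h1
      exact h1
    have hφu : ∀ i : Fin (d + 1), (i : ℕ) ≤ r → φ ⬝ᵥ u i = 0 := by
      intro i hi
      have h1 := congrArg (· ⬝ᵥ u i) (hφ1 i hi)
      simp only [zero_dotProduct] at h1
      rwa [← Matrix.dotProduct_mulVec, hEsv, hWu, if_pos rfl, one_smul] at h1
    have hl : ∀ n, n ≤ r → n ≤ d + 1 → ∀ f ∈ degreeLT K n, ∑ j, a j * (f.eval (θ j) * c j) = 0 := by
      intro n
      induction n with
      | zero =>
        intro _ _ f hf
        have : f = 0 := by simpa [mem_degreeLT] using hf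
        simp [this]
      | succ n ih =>
        intro h1 h2 f hf
        obtain ⟨g, hg, hg0, hg'⟩ := hu n (by omega)
        have h3 := hφu ⟨n, by omega⟩ (by simp; omega)
        rw [hφ] at h3
        simp only [hg'] at h3
        have h4 := ih (by omega) (by omega) (f - (f.coeff n / g.coeff n) • g) (by
          rw [mem_degreeLT, degree_lt_iff_coeff_zero] at *
          intro m hm
          rcases Nat.eq_or_lt_of_le hm with rfl | h
          · simp [hg0]
          · simp [hf m h, hg m h])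
        simp only [eval_sub, eval_smul, smul_eq_mul, sub_mul, mul_sub, Finset.sum_sub_distrib] at h4
        rw [sub_eq_zero] at h4
        rw [h4, ← mul_zero (f.coeff n / g.coeff n), ← h3, Finset.mul_sum]
        exact Finset.sum_congr rfl fun j _ => by ring
    have ha0 : a = 0 := by
      ext j
      by_cases hj : r ≤ (j : ℕ)
      · exact ha j hj
      · let s : Finset (Fin (d + 1)) := Finset.univ.filter fun k => (k : ℕ) < r
        have hjs : j ∈ s := by simp [s]; omega
        have hs1 : s.card ≤ r := by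
          simpa using Finset.card_le_card_of_injOn (s := s) (t := Finset.range r) Fin.val
            (fun k hk => by simpa [s] using hk) Fin.val_injective.injOn
        have hs2 : s.card ≤ d + 1 := by simpa using Finset.card_le_univ s
        have hs3 : 0 < s.card := Finset.card_pos.2 ⟨j, hjs⟩
        have h1 := hl s.card hs1 hs2 (Lagrange.basis s θ j) (by
          rw [mem_degreeLT, Lagrange.degree_basis hθ.injOn hjs]
          norm_cast; omega)
        rw [Finset.sum_eq_single j, Lagrange.eval_basis_self hθ.injOn hjs, one_mul] at h1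
        · exact (mul_eq_zero.1 h1).resolve_right (hc0 j)
        · intro k _ hk
          by_cases hks : k ∈ s
          · rw [Lagrange.eval_basis_of_ne (Ne.symm hk) hks]; simp
          · rw [ha k (by simpa [s] using hks), zero_mul]
        · simp
    rw [← Matrix.vecMul_one φ, ← hQ, ← Matrix.vecMul_vecMul]
    change a ᵥ* Q = 0
    rw [ha0, Matrix.zero_vecMul]

lemma span_top {T : Set (Matrix (Fin (d + 1)) (Fin (d + 1)) K)} (S : Submodule K (Fin (d + 1) → K))
    (hT : ∀ φ, (∀ e ∈ T, φ ᵥ* e = 0) → φ = 0) (hS : ∀ e ∈ T, ∀ x, e *ᵥ x ∈ S) : S = ⊤ := by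
  by_contra hne
  obtain ⟨f, hf0, hf⟩ := Submodule.exists_le_ker_of_lt_top S (lt_top_iff_ne_top.2 hne)
  have hfv : ∀ v, f v = (fun a => f (Pi.single a 1)) ⬝ᵥ v := fun v => by
    rw [LinearMap.pi_apply_eq_sum_univ, dotProduct]
    refine Finset.sum_congr rfl fun a _ => ?_
    rw [smul_eq_mul, mul_comm]
    congr 2; ext b; simp [Pi.single_apply, eq_comm]
  have := hT (fun a => f (Pi.single a 1)) (fun e he => by
    ext b
    have h1 : f (e *ᵥ Pi.single b 1) = 0 := hf (hS e he _)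
    rw [hfv, Matrix.dotProduct_mulVec] at h1
    simpa using h1)
  apply hf0
  apply LinearMap.ext; intro v
  rw [hfv, this]; simp

theorem result (K : Type) [Field K] (d : ℕ) (A As : Matrix (Fin (d + 1)) (Fin (d + 1)) K)
    (E Es : Fin (d + 1) → Matrix (Fin (d + 1)) (Fin (d + 1)) K)
    (h : IsLeonardSystem A As E Es) (r : Fin (d + 1)) :
    Algebra.adjoin K (Es '' {i | i ≤ r} ∪ E '' {j | r ≤ j}) = ⊤ := by
  obtain ⟨h1, h2, hT1, hT2⟩ := h
  have d1 := diag_of h1
  have d2 := diag_of h2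
  obtain ⟨n1, s1⟩ := core d1 d2 hT2
  obtain ⟨n2, s2⟩ := core d1.transpose d2.transpose hT2.transpose
  obtain ⟨n3, -⟩ := core d2 d1.rev hT1.rev
  obtain ⟨n4, -⟩ := core d2.transpose d1.rev.transpose hT1.rev.transpose
  simp only [← Matrix.transpose_mul, ne_eq, Matrix.transpose_eq_zero, Fin.rev_zero] at n2 n3 n4
  set T := Es '' {i | i ≤ r} ∪ E '' {j | r ≤ j} with hTdef
  set B := Algebra.adjoin K T
  obtain ⟨-, P, Q, -, -, -, hE⟩ := d1
  obtain ⟨-, U, W, -, -, -, hEs⟩ := d2
  have mE : ∀ j, r ≤ j → E j ∈ B := fun j hj => Algebra.subset_adjoin (Or.inr ⟨j, hj, rfl⟩)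
  have mEs : ∀ i, i ≤ r → Es i ∈ B := fun i hi => Algebra.subset_adjoin (Or.inl ⟨i, hi, rfl⟩)
  have step : ∀ v p q p' q' : Fin (d + 1) → K, vecMulVec v q ∈ B → vecMulVec p' q' ∈ B →
      vecMulVec p q * vecMulVec p' q' ≠ 0 → vecMulVec v q' ∈ B := by
    intro v p q p' q' a1 a2 a3
    have a4 := B.mul_mem a1 a2
    rw [vecMulVec_mul_vecMulVec] at a3 a4
    have a5 : q ⬝ᵥ p' ≠ 0 := fun h => a3 (by rw [h]; simp)
    have := B.smul_mem a4 (q ⬝ᵥ p')⁻¹
    rwa [vecMulVec_smul, smul_smul, inv_mul_cancel₀ a5, one_smul] at this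
  have t1 : ∀ v j, vecMulVec v (Q j) ∈ B → vecMulVec v (W 0) ∈ B := fun v j h =>
    step v _ _ _ _ h (hEs 0 ▸ mEs 0 (Fin.zero_le _)) (by rw [← hE, ← hEs]; exact n1 j)
  have t2 : ∀ v j, r ≤ j → vecMulVec v (W 0) ∈ B → vecMulVec v (Q j) ∈ B := fun v j hj h =>
    step v _ _ _ _ h (hE j ▸ mE j hj) (by rw [← hE, ← hEs]; exact n2 j)
  have t3 : ∀ v i, vecMulVec v (W i) ∈ B → vecMulVec v (Q (Fin.last d)) ∈ B := fun v i h =>
    step v _ _ _ _ h (hE _ ▸ mE _ (Fin.le_last _)) (by rw [← hE, ← hEs]; exact n3 i)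
  have t4 : ∀ v i, i ≤ r → vecMulVec v (Q (Fin.last d)) ∈ B → vecMulVec v (W i) ∈ B :=
    fun v i hi h => step v _ _ _ _ h (hEs i ▸ mEs i hi) (by rw [← hE, ← hEs]; exact n4 i)
  let S1 : Submodule K (Fin (d + 1) → K) :=
    { carrier := {v | vecMulVec v (W 0) ∈ B}
      add_mem' := fun {v w} hv hw => by
        show vecMulVec (v + w) _ ∈ B
        rw [add_vecMulVec]; exact B.add_mem hv hw
      zero_mem' := by show vecMulVec 0 _ ∈ B; rw [zero_vecMulVec]; exact B.zero_mem
      smul_mem' := fun t v hv => by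
        show vecMulVec (t • v) _ ∈ B
        rw [smul_vecMulVec]; exact B.smul_mem hv t }
  have hS1 : S1 = ⊤ := by
    refine span_top (T := T) S1 (fun φ hφ => s1 r φ (fun i hi => hφ _ (Or.inl ⟨i, hi, rfl⟩))
      (fun j hj => hφ _ (Or.inr ⟨j, hj, rfl⟩))) ?_
    rintro _ (⟨i, hi, rfl⟩ | ⟨j, hj, rfl⟩) x
    · rw [hEs, vecMulVec_mulVec, op_smul_eq_smul]
      exact S1.smul_mem _ (t1 _ _ (t3 _ _ (hEs i ▸ mEs i hi)))
    · rw [hE, vecMulVec_mulVec, op_smul_eq_smul]
      exact S1.smul_mem _ (t1 _ _ (hE j ▸ mE j hj))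
  have hall : ∀ v q, vecMulVec v q ∈ B := by
    intro v q
    have h0 : vecMulVec v (W 0) ∈ B := hS1.ge (Submodule.mem_top (x := v))
    let S2 : Submodule K (Fin (d + 1) → K) :=
      { carrier := {q | vecMulVec v q ∈ B}
        add_mem' := fun {a b} ha hb => by
          show vecMulVec v (a + b) ∈ B
          rw [vecMulVec_add]; exact B.add_mem ha hb
        zero_mem' := by show vecMulVec v 0 ∈ B; rw [vecMulVec_zero]; exact B.zero_mem
        smul_mem' := fun t a ha => by
          show vecMulVec v (t • a) ∈ B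
          rw [vecMulVec_smul]; exact B.smul_mem ha t }
    have hS2 : S2 = ⊤ := by
      refine span_top (T := Matrix.transpose '' T) S2 (fun φ hφ => s2 r φ
        (fun i hi => hφ _ ⟨_, Or.inl ⟨i, hi, rfl⟩, rfl⟩)
        (fun j hj => hφ _ ⟨_, Or.inr ⟨j, hj, rfl⟩, rfl⟩)) ?_
      rintro _ ⟨_, (⟨i, hi, rfl⟩ | ⟨j, hj, rfl⟩), rfl⟩ x
      · rw [hEs, transpose_vecMulVec, vecMulVec_mulVec, op_smul_eq_smul]
        exact S2.smul_mem _ (t4 _ _ hi (t3 _ _ h0))
      · rw [hE, transpose_vecMulVec, vecMulVec_mulVec, op_smul_eq_smul]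
        exact S2.smul_mem _ (t2 _ _ hj h0)
    exact hS2.ge (Submodule.mem_top (x := q))
  rw [eq_top_iff]
  intro M _
  have : M = ∑ a, vecMulVec (Pi.single a 1) (M a) := by
    ext a b; simp [Matrix.sum_apply, vecMulVec_apply, Pi.single_apply]
  rw [this]
  exact B.sum_mem fun a _ => hall _ _

end Pool.Agent.Results.MP_9ad7dc_al.IdempotentsGenerate
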